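import Pool.Agent.N859.QW.Stm

/-!
# QW/HF (helper128): the group von Neumann algebra of a locally finite ICC group is the hyperfinite
II₁ factor
-/

set_option autoImplicit false

open scoped InnerProductSpace CStarAlgebra

namespace Pool.Agent.N128.QW

open Pool.Agent.N859.QW

section basics

variable {Λ : Type}

theorem two_real : (2 : ENNReal).toReal = 2 := by norm_num

theorem memU (e : Λ ≃ Λ) (ζ : l2 Λ) : Memℓp (fun x => (ζ : ∀ _ : Λ, ℂ) (e x)) 2 := by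
  apply memℓp_gen
  have h := (memℓp_gen_iff (by norm_num)).1 (lp.memℓp ζ)
  exact (e.summable_iff (f := fun x => ‖(ζ : ∀ _ : Λ, ℂ) x‖ ^ (2 : ENNReal).toReal)).2 h

/-- composition with a permutation -/
noncomputable def U (e : Λ ≃ Λ) : l2 Λ →L[ℂ] l2 Λ :=
  LinearMap.mkContinuous
    { toFun := fun ζ => ⟨fun x => (ζ : ∀ _ : Λ, ℂ) (e x), memU e ζ⟩
      map_add' := fun ζ η => by ext x; rfl
      map_smul' := fun c ζ => by ext x; rfl } 1 (by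
    intro ζ
    rw [one_mul]
    have h1 := lp.norm_rpow_eq_tsum (p := 2) (by norm_num)
      (⟨fun x => (ζ : ∀ _ : Λ, ℂ) (e x), memU e ζ⟩ : l2 Λ)
    have h2 := lp.norm_rpow_eq_tsum (p := 2) (by norm_num) ζ
    rw [two_real] at h1 h2
    have h3 : ∑' x, ‖(ζ : ∀ _ : Λ, ℂ) (e x)‖ ^ (2 : ℝ) = ∑' x, ‖(ζ : ∀ _ : Λ, ℂ) x‖ ^ (2 : ℝ) :=
      e.tsum_eq (fun x => ‖(ζ : ∀ _ : Λ, ℂ) x‖ ^ (2 : ℝ))
    have h4 : ‖(⟨fun x => (ζ : ∀ _ : Λ, ℂ) (e x), memU e ζ⟩ : l2 Λ)‖ ^ (2 : ℝ) = ‖ζ‖ ^ (2 : ℝ) := by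
      rw [h1, h2, ← h3]
    rw [Real.rpow_two, Real.rpow_two] at h4
    exact (pow_le_pow_iff_left₀ (norm_nonneg _) (norm_nonneg _) two_ne_zero).1 h4.le)

theorem U_apply (e : Λ ≃ Λ) (ζ : l2 Λ) (x : Λ) :
    (U e ζ : ∀ _ : Λ, ℂ) x = (ζ : ∀ _ : Λ, ℂ) (e x) := rfl

theorem ext_op {S T : l2 Λ →L[ℂ] l2 Λ}
    (h : ∀ (ζ : l2 Λ) (x : Λ), (S ζ : ∀ _ : Λ, ℂ) x = (T ζ : ∀ _ : Λ, ℂ) x) : S = T := by
  ext ζ x
  exact h ζ x

theorem U_mul (e f : Λ ≃ Λ) : U e * U f = U (e.trans f) := ext_op fun _ _ => rfl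

theorem U_one : U (Equiv.refl Λ) = 1 := ext_op fun _ _ => rfl

theorem U_star (e : Λ ≃ Λ) : star (U e) = U e.symm := by
  rw [ContinuousLinearMap.star_eq_adjoint]
  symm
  rw [ContinuousLinearMap.eq_adjoint_iff]
  intro ζ η
  rw [lp.inner_eq_tsum, lp.inner_eq_tsum,
    ← e.tsum_eq (fun x => ⟪(U e.symm ζ : ∀ _ : Λ, ℂ) x, (η : ∀ _ : Λ, ℂ) x⟫_ℂ)]
  refine tsum_congr fun x => ?_
  rw [U_apply, U_apply, Equiv.symm_apply_apply]

theorem coe_vN {H : Type} [NormedAddCommGroup H] [InnerProductSpace ℂ H] [CompleteSpace H]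
    (S : Set (H →L[ℂ] H)) : ((vN S : VonNeumannAlgebra H) : Set (H →L[ℂ] H)) =
      Set.centralizer (Set.centralizer (S ∪ star S)) := by
  unfold vN
  rw [VonNeumannAlgebra.coe_commutant]
  congr 1

end basics

section group

variable {Λ : Type} [Group Λ]

/-- left translations -/
noncomputable def lam (a : Λ) : l2 Λ →L[ℂ] l2 Λ := U (Equiv.mulLeft a⁻¹)

/-- right translations -/
noncomputable def rho (a : Λ) : l2 Λ →L[ℂ] l2 Λ := U (Equiv.mulRight a)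

theorem lam_apply (a : Λ) (ζ : l2 Λ) (x : Λ) :
    (lam a ζ : ∀ _ : Λ, ℂ) x = (ζ : ∀ _ : Λ, ℂ) (a⁻¹ * x) := rfl

theorem rho_apply (a : Λ) (ζ : l2 Λ) (x : Λ) :
    (rho a ζ : ∀ _ : Λ, ℂ) x = (ζ : ∀ _ : Λ, ℂ) (x * a) := rfl

theorem lam_mul (a b : Λ) : lam a * lam b = lam (a * b) :=
  ext_op fun ζ x => by
    show (ζ : ∀ _ : Λ, ℂ) (b⁻¹ * (a⁻¹ * x)) = (ζ : ∀ _ : Λ, ℂ) ((a * b)⁻¹ * x)
    rw [mul_inv_rev, mul_assoc]

theorem lam_one : lam (1 : Λ) = 1 :=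
  ext_op fun ζ x => by
    show (ζ : ∀ _ : Λ, ℂ) (1⁻¹ * x) = (ζ : ∀ _ : Λ, ℂ) x
    rw [inv_one, one_mul]

theorem lam_star (a : Λ) : star (lam a) = lam a⁻¹ := by
  unfold lam
  rw [U_star]
  congr 1
  ext x
  simp

theorem lam_rho (a b : Λ) : lam a * rho b = rho b * lam a :=
  ext_op fun ζ x => by
    show (ζ : ∀ _ : Λ, ℂ) (a⁻¹ * x * b) = (ζ : ∀ _ : Λ, ℂ) (a⁻¹ * (x * b))
    rw [mul_assoc]

/-- the set of left translations -/
def LS (Λ : Type) [Group Λ] : Set (l2 Λ →L[ℂ] l2 Λ) :=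
  {T | ∃ a : Λ, ∀ (ζ : l2 Λ) (x : Λ), (T ζ : ∀ _ : Λ, ℂ) x = (ζ : ∀ _ : Λ, ℂ) (a⁻¹ * x)}

theorem LS_eq : LS Λ = Set.range (lam (Λ := Λ)) := by
  ext T
  constructor
  · rintro ⟨a, ha⟩
    exact ⟨a, ext_op fun ζ x => (ha ζ x).symm⟩
  · rintro ⟨a, rfl⟩
    exact ⟨a, fun ζ x => rfl⟩

theorem star_range : star (Set.range (lam (Λ := Λ))) = Set.range (lam (Λ := Λ)) := by
  ext T
  rw [Set.mem_star]
  constructor
  · rintro ⟨a, ha⟩
    refine ⟨a⁻¹, ?_⟩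
    rw [← lam_star, ha, star_star]
  · rintro ⟨a, rfl⟩
    exact ⟨a⁻¹, (lam_star a).symm⟩

theorem coe_LG : ((LG Λ : VonNeumannAlgebra (l2 Λ)) : Set (l2 Λ →L[ℂ] l2 Λ)) =
    Set.centralizer (Set.centralizer (Set.range (lam (Λ := Λ)))) := by
  have h : LG Λ = vN (LS Λ) := rfl
  rw [h, coe_vN, LS_eq, star_range, Set.union_self]

theorem lam_mem (a : Λ) : lam a ∈ LG Λ := by
  rw [← SetLike.mem_coe, coe_LG]
  exact Set.subset_centralizer_centralizer ⟨a, rfl⟩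

theorem rho_comm {T : l2 Λ →L[ℂ] l2 Λ} (hT : T ∈ LG Λ) (b : Λ) : rho b * T = T * rho b := by
  rw [← SetLike.mem_coe, coe_LG] at hT
  apply hT
  rintro _ ⟨a, rfl⟩
  exact lam_rho a b

open Classical in
/-- basis vectors -/
noncomputable def dd (b : Λ) : l2 Λ := lp.single 2 b (1 : ℂ)

open Classical in
omit [Group Λ] in
theorem dd_apply (b x : Λ) : (dd b : ∀ _ : Λ, ℂ) x = if x = b then 1 else 0 := by
  unfold dd
  by_cases h : x = b
  · subst h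
    rw [lp.single_apply_self, if_pos rfl]
  · rw [lp.single_apply_ne _ _ _ h, if_neg h]

theorem dl_eq : dl Λ = dd 1 := rfl

theorem lam_dd (a b : Λ) : lam a (dd b) = dd (a * b) := by
  classical
  ext x
  rw [lam_apply, dd_apply, dd_apply]
  congr 1
  rw [inv_mul_eq_iff_eq_mul]

theorem rho_dd (a b : Λ) : rho a (dd b) = dd (b * a⁻¹) := by
  classical
  ext x
  rw [rho_apply, dd_apply, dd_apply]
  congr 1
  rw [eq_mul_inv_iff_mul_eq]

theorem hasSum_dd (ζ : l2 Λ) : HasSum (fun b => (ζ : ∀ _ : Λ, ℂ) b • dd b) ζ := by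
  classical
  have h := lp.hasSum_single (p := 2) (by norm_num) ζ
  have e : (fun b => (ζ : ∀ _ : Λ, ℂ) b • dd b) =
      fun b => (lp.single 2 b ((ζ : ∀ _ : Λ, ℂ) b) : l2 Λ) := by
    funext b
    ext x
    have h1 : (((ζ : ∀ _ : Λ, ℂ) b • dd b : l2 Λ) : ∀ _ : Λ, ℂ) x =
      (ζ : ∀ _ : Λ, ℂ) b * (dd b : ∀ _ : Λ, ℂ) x := rfl
    rw [h1, dd_apply]
    by_cases hx : x = b
    · subst hx
      rw [lp.single_apply_self, if_pos rfl, mul_one]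
    · rw [lp.single_apply_ne _ _ _ hx, if_neg hx, mul_zero]
  rw [e]
  exact h

omit [Group Λ] in
theorem inner_dd (b : Λ) (ζ : l2 Λ) : ⟪dd b, ζ⟫_ℂ = (ζ : ∀ _ : Λ, ℂ) b := by
  classical
  unfold dd
  rw [lp.inner_single_left]
  simp

theorem faithful {T : l2 Λ →L[ℂ] l2 Λ} (hT : T ∈ LG Λ) (h : T (dl Λ) = 0) : T = 0 := by
  have h1 : ∀ b, T (dd b) = 0 := by
    intro b
    have h2 : dd b = rho b⁻¹ (dl Λ) := by rw [dl_eq, rho_dd, inv_inv, one_mul]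
    rw [h2]
    have h3 := congrArg (fun S => S (dl Λ)) (rho_comm hT b⁻¹)
    have h4 : T (rho b⁻¹ (dl Λ)) = rho b⁻¹ (T (dl Λ)) := h3.symm
    rw [h4, h, map_zero]
  refine ContinuousLinearMap.ext fun ζ => ?_
  have h2 := (hasSum_dd ζ).mapL T
  have h3 : (fun b => T ((ζ : ∀ _ : Λ, ℂ) b • dd b)) = fun _ => 0 := by
    funext b
    rw [map_smul, h1, smul_zero]
  rw [h3] at h2
  exact h2.unique hasSum_zero

theorem coef {T : l2 Λ →L[ℂ] l2 Λ} (hT : T ∈ LG Λ) (b c : Λ) :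
    (T (dd b) : ∀ _ : Λ, ℂ) c = (T (dl Λ) : ∀ _ : Λ, ℂ) (c * b⁻¹) := by
  have h2 : dd b = rho b⁻¹ (dl Λ) := by rw [dl_eq, rho_dd, inv_inv, one_mul]
  rw [h2]
  have h3 := congrArg (fun S => S (dl Λ)) (rho_comm hT b⁻¹)
  have h4 : T (rho b⁻¹ (dl Λ)) = rho b⁻¹ (T (dl Λ)) := h3.symm
  rw [h4, rho_apply]

theorem tr_eq {S T : l2 Λ →L[ℂ] l2 Λ} (hS : S ∈ LG Λ) :
    ⟪dl Λ, S (T (dl Λ))⟫_ℂ = ∑' b, (T (dl Λ) : ∀ _ : Λ, ℂ) b * (S (dl Λ) : ∀ _ : Λ, ℂ) b⁻¹ := by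
  have h1 := ((hasSum_dd (T (dl Λ))).mapL S).mapL (innerSL ℂ (dl Λ))
  rw [innerSL_apply_apply] at h1
  rw [← h1.tsum_eq]
  refine tsum_congr fun b => ?_
  rw [innerSL_apply_apply, map_smul, inner_smul_right]
  congr 1
  have h2 : ⟪dl Λ, S (dd b)⟫_ℂ = (S (dd b) : ∀ _ : Λ, ℂ) 1 := inner_dd 1 _
  rw [h2, coef hS, one_mul]

theorem tracial {S T : l2 Λ →L[ℂ] l2 Λ} (hS : S ∈ LG Λ) (hT : T ∈ LG Λ) :
    ⟪dl Λ, S (T (dl Λ))⟫_ℂ = ⟪dl Λ, T (S (dl Λ))⟫_ℂ := by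
  rw [tr_eq hS, tr_eq hT, ← (Equiv.inv Λ).tsum_eq
    (fun b => (T (dl Λ) : ∀ _ : Λ, ℂ) b * (S (dl Λ) : ∀ _ : Λ, ℂ) b⁻¹)]
  refine tsum_congr fun b => ?_
  simp only [Equiv.inv_apply, inv_inv]
  ring

theorem center {z : l2 Λ →L[ℂ] l2 Λ} (hz : z ∈ LG Λ) (hc : z ∈ (LG Λ).commutant)
    (hicc : ∀ a : Λ, a ≠ 1 → (Set.range fun g => g * a * g⁻¹).Infinite) :
    ∃ c : ℂ, z = c • (1 : l2 Λ →L[ℂ] l2 Λ) := by
  set Z : Λ → ℂ := fun x => (z (dl Λ) : ∀ _ : Λ, ℂ) x with hZ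
  have h1 : ∀ g x : Λ, Z (g⁻¹ * (x * g)) = Z x := by
    intro g x
    have h2 : z * lam g = lam g * z := ((VonNeumannAlgebra.mem_commutant_iff.1 hc) _ (lam_mem g)).symm
    have h3 : rho g (lam g (dl Λ)) = dl Λ := by
      rw [dl_eq, lam_dd, rho_dd, mul_one, mul_inv_cancel]
    have h4 : z (dl Λ) = rho g (lam g (z (dl Λ))) := by
      have h5 : rho g (z (lam g (dl Λ))) = z (rho g (lam g (dl Λ))) :=
        congrArg (fun S => S (lam g (dl Λ))) (rho_comm hz g)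
      have h6 : z (lam g (dl Λ)) = lam g (z (dl Λ)) := congrArg (fun S => S (dl Λ)) h2
      rw [← h6, h5, h3]
    have h5 : Z x = (rho g (lam g (z (dl Λ))) : ∀ _ : Λ, ℂ) x := by rw [← h4]
    rw [h5, rho_apply, lam_apply]
  have h2 : ∀ a, a ≠ 1 → Z a = 0 := by
    intro a ha
    by_contra hne
    have h3 : Summable fun x => ‖Z x‖ ^ (2 : ENNReal).toReal :=
      (memℓp_gen_iff (by norm_num)).1 (lp.memℓp (z (dl Λ)))
    rw [two_real] at h3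
    have h4 := h3.tendsto_cofinite_zero
    have hpos : 0 < ‖Z a‖ ^ (2 : ℝ) := Real.rpow_pos_of_pos (norm_pos_iff.2 hne) _
    have h5 := h4.eventually (gt_mem_nhds hpos)
    rw [Filter.eventually_cofinite] at h5
    apply hicc a ha
    refine h5.subset ?_
    rintro _ ⟨g, rfl⟩
    have h6 : Z (g * a * g⁻¹) = Z a := by
      have h7 := h1 g⁻¹ a
      rw [inv_inv, ← mul_assoc] at h7
      exact h7
    simp only [Set.mem_ofPred_eq, not_lt]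
    rw [h6]
  refine ⟨Z 1, ?_⟩
  have h3 : z - (Z 1) • (1 : l2 Λ →L[ℂ] l2 Λ) ∈ LG Λ :=
    sub_mem hz ((LG Λ).toStarSubalgebra.smul_mem (one_mem (LG Λ).toStarSubalgebra) (Z 1))
  have h4 : (z - (Z 1) • (1 : l2 Λ →L[ℂ] l2 Λ)) (dl Λ) = 0 := by
    classical
    ext x
    have h5 : ((z - (Z 1) • (1 : l2 Λ →L[ℂ] l2 Λ)) (dl Λ) : ∀ _ : Λ, ℂ) x =
      Z x - Z 1 * (dd (1 : Λ) : ∀ _ : Λ, ℂ) x := rfl
    rw [h5, dd_apply]
    by_cases hx : x = 1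
    · subst hx
      simp
    · rw [h2 x hx, if_neg hx]
      simp
  exact sub_eq_zero.1 (faithful h3 h4)

theorem infinite [Infinite Λ] : ¬ FiniteDimensional ℂ (LG Λ).toStarSubalgebra := by
  classical
  intro hfd
  have h1 : LinearIndependent ℂ (fun a : Λ => (⟨lam a, lam_mem a⟩ : (LG Λ).toStarSubalgebra)) := by
    rw [linearIndependent_iff']
    intro s c hc a ha
    have h2 : (∑ b ∈ s, c b • lam b : l2 Λ →L[ℂ] l2 Λ) = 0 := by
      have := congrArg (fun x : (LG Λ).toStarSubalgebra => (x : l2 Λ →L[ℂ] l2 Λ)) hc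
      simpa using this
    have h3 := congrArg (fun S : l2 Λ →L[ℂ] l2 Λ => ⟪dd a, S (dl Λ)⟫_ℂ) h2
    simp only [sum_apply, smul_apply, zero_apply, inner_zero_right, inner_sum, inner_smul_right, inner_dd,
      dl_eq, lam_dd, mul_one, dd_apply] at h3
    simpa [ha] using h3
  have := h1.finite
  exact not_finite Λ

/-- the finite dimensional subalgebras -/
noncomputable def DD (F : Subgroup Λ) : StarSubalgebra ℂ (l2 Λ →L[ℂ] l2 Λ) :=
  StarAlgebra.adjoin ℂ (lam '' (F : Set Λ))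

theorem DD_span (F : Subgroup Λ) : Subalgebra.toSubmodule (DD F).toSubalgebra =
    Submodule.span ℂ (lam '' (F : Set Λ)) := by
  unfold DD
  rw [StarAlgebra.adjoin_eq_span]
  congr 1
  apply Set.Subset.antisymm
  · let M : Submonoid (l2 Λ →L[ℂ] l2 Λ) :=
      { carrier := lam '' (F : Set Λ)
        one_mem' := ⟨1, F.one_mem, lam_one⟩
        mul_mem' := by
          rintro _ _ ⟨a, ha, rfl⟩ ⟨b, hb, rfl⟩
          exact ⟨a * b, F.mul_mem ha hb, (lam_mul a b).symm⟩ }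
    have h : Submonoid.closure (lam '' (F : Set Λ) ∪ star (lam '' (F : Set Λ))) ≤ M := by
      rw [Submonoid.closure_le]
      rintro T (hT | hT)
      · exact hT
      · rw [Set.mem_star] at hT
        obtain ⟨a, ha, h1⟩ := hT
        refine ⟨a⁻¹, F.inv_mem ha, ?_⟩
        rw [← lam_star, h1, star_star]
    exact h
  · exact Set.subset_union_left.trans Submonoid.subset_closure

theorem DD_fin (F : Subgroup Λ) [Finite F] : FiniteDimensional ℂ (DD F) := by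
  have h1 : FiniteDimensional ℂ (Submodule.span ℂ (lam '' (F : Set Λ))) :=
    FiniteDimensional.span_of_finite ℂ ((Set.toFinite (F : Set Λ)).image _)
  rw [← DD_span] at h1
  exact h1

theorem cent_DD (F : ℕ → Subgroup Λ) (hF : ∀ a, ∃ n, a ∈ F n) :
    Set.centralizer (⋃ n, (DD (F n) : Set (l2 Λ →L[ℂ] l2 Λ))) =
      Set.centralizer (Set.range (lam (Λ := Λ))) := by
  apply Set.Subset.antisymm
  · apply Set.centralizer_subset
    rintro _ ⟨a, rfl⟩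
    obtain ⟨n, hn⟩ := hF a
    exact Set.mem_iUnion.2 ⟨n, StarAlgebra.subset_adjoin ℂ _ ⟨a, hn, rfl⟩⟩
  · intro T hT S hS
    obtain ⟨n, hn⟩ := Set.mem_iUnion.1 hS
    have h1 : S ∈ Submodule.span ℂ (lam '' (F n : Set Λ)) := by
      rw [← DD_span]
      exact hn
    refine Submodule.span_induction (p := fun S _ => S * T = T * S) ?_ ?_ ?_ ?_ h1
    · rintro _ ⟨a, _, rfl⟩
      exact hT _ ⟨a, rfl⟩
    · simp
    · intro x y _ _ hx hy
      rw [add_mul, mul_add, hx, hy]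
    · intro c x _ hx
      rw [smul_mul_assoc, mul_smul_comm, hx]

end group

/-- HF -/
theorem t_hf : S_HF := by
  intro Λ _ _ F hmono hfin hall hicc
  refine ⟨fun z hz hc => center hz hc hicc, infinite, ?_, fun x hx y hy => tracial hx hy,
    fun x hx h => faithful hx h, fun n => DD (F n), ?_, ?_, ?_⟩
  · classical
    unfold dl
    rw [lp.norm_single (by norm_num)]
    simp
  · intro m n hmn
    exact StarAlgebra.adjoin_mono (Set.image_mono (hmono hmn))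
  · intro n
    have := hfin n
    exact DD_fin (F n)
  · rw [cent_DD F hall, coe_LG]

end Pool.Agent.N128.QW
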